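import Pool.Agent.Helper653_Tor.Gen
import Pool.Agent.Helper653_Tor.Dir

/-!
# Vanishing of the `L²`-torsion of sofic groups with commuting powers of conjugates

A sofic group of type `FL` with an element `g` of infinite order such that each conjugate of `g` has
a power which commutes with a power of `g` has vanishing `L²`-Betti numbers, is of determinant class
and has vanishing `L²`-torsion. The products of the elements `u - 1`, for `u` conjugate to a
positive power of `g`, form a left Ore set of elements of Fuglede-Kadison determinant one.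
-/

set_option autoImplicit false

noncomputable section

namespace Pool.Agent.Results.MP_4331b4_al.CommutingPowers

open Pool.Agent.Helper993.FK Pool.Agent.TH630.Tor Pool.Agent.Helper653_Tor

/-- Sofic groups: for every finite set `F` and every `ε > 0` there are `n ≥ 1` and a map `σ` into
`Sym(n)` such that `σ (g h)` and `σ g σ h` agree on at least `(1 - ε) n` points for `g, h ∈ F`, and
`σ g` has at most `ε n` fixed points for `g ∈ F`, `g ≠ 1`. -/
def Sofic (G : Type) [Group G] : Prop :=
  ∀ (F : Finset G) (ε : ℝ), 0 < ε → ∃ (n : ℕ) (σ : G → Equiv.Perm (Fin n)), 1 ≤ n ∧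
    (∀ g ∈ F, ∀ h ∈ F,
      (1 - ε) * n ≤ ((Finset.univ.filter fun i => σ (g * h) i = (σ g * σ h) i).card : ℝ)) ∧
    ∀ g ∈ F, g ≠ 1 → ((Finset.univ.filter fun i => σ g i = i).card : ℝ) ≤ ε * n

theorem hamm_eq {n : ℕ} (hn : 1 ≤ n) (σ τ : Equiv.Perm (Fin n)) :
    hamm σ τ = 1 - ((Finset.univ.filter fun i => σ i = τ i).card : ℝ) / n := by
  have h1 := Finset.card_filter_add_card_filter_not (s := (Finset.univ : Finset (Fin n)))
    (fun i => σ i = τ i)
  rw [Finset.card_univ, Fintype.card_fin] at h1
  have h2 : ((Finset.univ.filter fun i => σ i = τ i).card : ℝ)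
      + ((Finset.univ.filter fun i => ¬ σ i = τ i).card : ℝ) = n := by exact_mod_cast h1
  have hn' : (0 : ℝ) < n := by exact_mod_cast hn
  unfold hamm
  rw [eq_sub_iff_add_eq, ← add_div, div_eq_one_iff_eq hn'.ne', ← h2, add_comm]

theorem isSofic_of_sofic {G : Type} [Group G] (h : Sofic G) : IsSofic G := by
  classical
  intro A ε hε
  obtain ⟨n, σ, hn, h1, h2⟩ := h (insert 1 A) (ε / 3) (by positivity)
  have hn' : (0 : ℝ) < n := by exact_mod_cast hn
  have k1 : ∀ g ∈ insert 1 A, ∀ h ∈ insert 1 A, hamm (σ (g * h)) (σ g * σ h) ≤ ε / 3 := by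
    intro g hg h hh
    have h3 := h1 g hg h hh
    rw [hamm_eq hn, sub_le_comm, le_div_iff₀ hn']
    exact h3
  have k2 : hamm (σ 1) 1 ≤ ε / 3 := by
    have h3 := k1 1 (Finset.mem_insert_self _ _) 1 (Finset.mem_insert_self _ _)
    rw [one_mul] at h3
    have h4 := hamm_mul_left (σ 1) 1 (σ 1)
    rw [mul_one] at h4
    rw [h4, hamm_comm] at h3
    exact h3
  refine ⟨n, hn, fun g => if g = 1 then 1 else σ g, if_pos rfl, ?_, ?_⟩
  · intro a ha b hb hab
    by_cases ha1 : a = 1
    · subst ha1
      simp only [one_mul, if_true, hamm_self]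
      exact hε
    · by_cases hb1 : b = 1
      · subst hb1
        simp only [mul_one, if_true, hamm_self]
        exact hε
      · beta_reduce
        rw [if_neg ha1, if_neg hb1]
        have h3 := k1 a (Finset.mem_insert_of_mem ha) b (Finset.mem_insert_of_mem hb)
        by_cases hab1 : a * b = 1
        · rw [if_pos hab1]
          rw [hab1] at h3
          have h4 := hamm_tri 1 (σ 1) (σ a * σ b)
          rw [hamm_comm 1 (σ 1)] at h4
          linarith
        · rw [if_neg hab1]
          linarith
  · intro a ha ha1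
    beta_reduce
    rw [if_neg ha1, hamm_eq hn]
    have h3 := h2 a (Finset.mem_insert_of_mem ha) ha1
    have h4 : ((Finset.univ.filter fun i => σ a i = (1 : Equiv.Perm (Fin n)) i).card : ℝ) / n
        ≤ ε / 3 := by
      rw [div_le_iff₀ hn']
      exact h3
    linarith

/-- The `L²`-torsion of the complex `C` is defined and vanishes: all `L²`-Betti numbers are zero,
all boundary operators have positive Fuglede-Kadison determinant, and the alternating sum of the
logarithms of these determinants is zero (`C.l2d n` is the boundary operator `d_{n+1}`). -/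
def TorsionVanishes {G : Type} [Group G] (C : FreeCx G) : Prop :=
  (∀ n, C.l2betti n = 0) ∧ (∀ n, 0 < fkDet (C.l2d n)) ∧
    ∑ n ∈ Finset.range C.dim, (-1 : ℝ) ^ (n + 1) * Real.log (fkDet (C.l2d n)) = 0

theorem vanishes_of {G : Type} [Group G] (C : FreeCx G)
    (h : C.DetL2Acyclic ∧ C.l2torsion = 0) : TorsionVanishes C := by
  obtain ⟨h1, h2⟩ := h
  refine ⟨fun n => (h1 n).1, fun n => (split_lap C n (h1 n).2).1, ?_⟩
  rw [l2torsion_eq C fun n => (h1 n).2] at h2
  rw [← neg_eq_zero, ← h2, ← Finset.sum_neg_distrib]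
  refine Finset.sum_congr rfl fun n _ => ?_
  ring

open scoped Pointwise in
/-- elements of commensurated abelian subgroups -/
theorem comm_of_commensurated {G : Type} [Group G] (A : Subgroup G)
    (hc : ∀ a ∈ A, ∀ b ∈ A, a * b = b * a) (hA : Subgroup.Commensurable.commensurator A = ⊤)
    (g : G) (hg : g ∈ A) (x : G) :
    ∃ m n : ℕ, 1 ≤ m ∧ 1 ≤ n ∧ Commute (g ^ m) (x * g ^ n * x⁻¹) := by
  have hx : x ∈ Subgroup.Commensurable.commensurator A := by
    rw [hA]
    exact Subgroup.mem_top x
  rw [Subgroup.Commensurable.commensurator_mem_iff] at hx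
  obtain ⟨m, hm, -, h⟩ := Subgroup.exists_pow_mem_of_relIndex_ne_zero hx.1 hg
  refine ⟨m, 1, hm, le_rfl, ?_⟩
  obtain ⟨a, ha, hax⟩ := (Subgroup.mem_smul_pointwise_iff_exists _ _ _).1
    (Subgroup.mem_inf.1 h).1
  have h1 : x * a * x⁻¹ = g ^ m := hax
  rw [← h1, pow_one]
  show _ * _ = _ * _
  calc x * a * x⁻¹ * (x * g * x⁻¹) = x * (a * g) * x⁻¹ := by group
    _ = x * (g * a) * x⁻¹ := by rw [hc a ha g hg]
    _ = x * g * x⁻¹ * (x * a * x⁻¹) := by group

/-- **Main theorem.** Let `G` be a sofic group with a finite free resolution `C` of the trivial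
module `ℤ` over the integral group ring (type `FL`), and let `g` be an element of infinite order
such that for each `x` some positive power of `x g x⁻¹` commutes with some positive power of `g`.
Then the `L²`-torsion of `G` is defined and vanishes. -/
theorem result (G : Type) [Group G] (hG : Sofic G) (C : FreeCx G) (a : Fin (C.rank 0) → ℤ)
    (hC : IsResolution C a) (g : G) (hg : ¬ IsOfFinOrder g)
    (hc : ∀ x : G, ∃ m n : ℕ, 1 ≤ m ∧ 1 ≤ n ∧ Commute (g ^ m) (x * g ^ n * x⁻¹)) :
    TorsionVanishes C := by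
  apply vanishes_of
  exact torsion_of_oreSet (isSofic_of_sofic hG) hC (oreSet_SS (isSofic_of_sofic hG) hg hc)

/-- the case of a commensurated abelian subgroup -/
theorem commensurated (G : Type) [Group G] (hG : Sofic G) (C : FreeCx G)
    (a : Fin (C.rank 0) → ℤ) (hC : IsResolution C a) (A : Subgroup G)
    (hA : ∀ x ∈ A, ∀ y ∈ A, x * y = y * x) (hA' : Subgroup.Commensurable.commensurator A = ⊤)
    (g : G) (hgA : g ∈ A) (hg : ¬ IsOfFinOrder g) : TorsionVanishes C :=
  result G hG C a hC g hg (comm_of_commensurated A hA hA' g hgA)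

/-- the case where any two elements have commuting powers -/
theorem commuting (G : Type) [Group G] (hG : Sofic G) (C : FreeCx G)
    (a : Fin (C.rank 0) → ℤ) (hC : IsResolution C a) (g : G) (hg : ¬ IsOfFinOrder g)
    (h : ∀ x y : G, ∃ m n : ℕ, 1 ≤ m ∧ 1 ≤ n ∧ Commute (x ^ m) (y ^ n)) :
    TorsionVanishes C := by
  refine result G hG C a hC g hg fun x => ?_
  obtain ⟨m, n, hm, hn, h1⟩ := h g (x * g * x⁻¹)
  exact ⟨m, n, hm, hn, by rwa [conj_pow] at h1⟩

end Pool.Agent.Results.MP_4331b4_al.CommutingPowers
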